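import Mathlib
import Pool.Agent.H36.QT.Chain
import Pool.Agent.H36.QT.W4
import Pool.Agent.H39.QT.W1
import Pool.Agent.H78.QT.T2
import Pool.Agent.H78.QT.W7

/-!
# The base polytope of `PG(2,3)` has no quadratic triangulation (MP_02a80e_co)

The definitions used by the statement are in `Pool/Agent/H36/QT/Defs.lean` and
`Pool/Agent/H36/QT/Stm.lean`: `vtx`, `verts`, `IsQuadratic`, `HasQuad`, `HasMinorIso`, `fanoVec`,
`pgVec`, `IsVecMatroid`.

Outline of the proof. A quadratic triangulation gives, for every two (three) bases, a standard pair
(triple) of bases with the same sum, unique, whose pairs are edges (module T1). The restriction of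
`PG(2,3)` to a quadrangle and its diagonal points is a non-Fano matroid `F_7^-`. For `F_7^-` a proof
with 157206 clauses, whose kernel check is in the modules `Pool/Agent/H36/QT/D`, shows that three
pairs of pairs of bases are not both edges: it uses the fibres of pairs and of triples, positive
combinations of the inequalities between the heights, and the 24 symmetries. These exclusions for the
24 orders of the 234 quadrangles of `PG(2,3)` are contradictory (module W7).
-/

set_option autoImplicit false

namespace Pool.Agent.Results.MP_02a80e_co.ProjectivePlaneOrderThree

open Pool.Agent.H36.QT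

/-- **The base polytope of `PG(2,3)` has no quadratic triangulation.** Let `F` be the Fano matroid (the
seven points of the projective plane over `ZMod 2`) and let `M` be the matroid of the 13 points of the
projective plane over `ZMod 3`. Then `M` has neither `F` nor its dual as a minor, and the base
polytope of `M` has no regular, unimodular and flag triangulation. So the class of the matroids with
a quadratic triangulation is not the class of the matroids without these two minors. -/
theorem result : ∃ (F : Matroid (Fin 7)) (M : Matroid (Fin 13)),
    IsVecMatroid fanoVec F ∧ IsVecMatroid pgVec M ∧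
      ¬ HasMinorIso F M ∧ ¬ HasMinorIso F✶ M ∧ ¬ HasQuad M := by
  obtain ⟨F, hF⟩ := H78.QT.t2a fanoVec
  obtain ⟨M, hM⟩ := H78.QT.t2a pgVec
  have h := H78.QT.t2c M F hM hF
  have H : Hyps := ⟨Pool.Agent.H39.QT.w1, w3, w3b, w4⟩
  exact ⟨F, M, hF, hM, h.1, h.2, H78.QT.w7 (lemA_of H) (lemB_of H) (lemC_of H) M hM⟩

end Pool.Agent.Results.MP_02a80e_co.ProjectivePlaneOrderThree
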